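import Pool.Agent.H180.Pf.Dbl
import Pool.Agent.H180.Pp.Count

/-! The collineation group; extending maps of the affine points. -/

set_option autoImplicit false
set_option linter.unusedSectionVars false

open Finset Configuration Configuration.ProjectivePlane
open scoped Classical

namespace Pool.Agent.H180.Pf

open Pool.Agent.H180.Pj

section General

variable {P L : Type} [Membership P L] [ProjectivePlane P L] [Fintype P] [Fintype L]

lemma ex_two_pts (h : L) (M : P) : ∃ x : P, x ∈ h ∧ x ≠ M := by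
  obtain ⟨x, x1, x2⟩ := ex_pt_off h {M} (by rw [card_singleton]; exact (one_lt_order P L).le)
  rw [mem_singleton] at x2
  exact ⟨x, x1, x2⟩

lemma line_ext {h k : L} (H : ∀ x : P, x ∈ h → x ∈ k) : h = k := by
  obtain ⟨x, x1, -⟩ := ex_pt_off (P := P) h ∅ (by simp)
  obtain ⟨y, y1, y2⟩ := ex_two_pts h x
  exact line_uniq y2 y1 x1 (H y y1) (H x x1)

/-- an injective map of the points that maps every line into a line is a collineation -/
theorem mk_col {s : P → P} (hs : Function.Injective s)
    (hl : ∀ h : L, ∃ k : L, ∀ x : P, x ∈ h → s x ∈ k) :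
    ∃ (σ : Equiv.Perm P) (τ : Equiv.Perm L), (∀ x, σ x = s x) ∧ ∀ x k, σ x ∈ τ k ↔ x ∈ k := by
  choose τ hτ using hl
  have key : ∀ x h, s x ∈ τ h ↔ x ∈ h := by
    intro x h
    refine ⟨fun hx => ?_, hτ h x⟩
    have h1 := pointCount_eq (P := P) h
    have h2 := pointCount_eq (P := P) (τ h)
    unfold pointCount at h1 h2
    let F : {p : P // p ∈ h} → {p : P // p ∈ τ h} := fun p => ⟨s p.1, hτ h p.1 p.2⟩
    have hF : Function.Injective F := by
      intro p q hpq
      exact Subtype.ext (hs (congrArg Subtype.val hpq))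
    have hB : Function.Bijective F := by
      rw [Fintype.bijective_iff_injective_and_card]
      refine ⟨hF, ?_⟩
      rw [← Nat.card_eq_fintype_card, ← Nat.card_eq_fintype_card, h1, h2]
    obtain ⟨y, hy⟩ := hB.2 ⟨s x, hx⟩
    have : y.1 = x := hs (congrArg Subtype.val hy)
    exact this ▸ y.2
  have hτi : Function.Injective τ := by
    intro h k hk
    refine line_ext (P := P) (fun x hx => ?_)
    rw [← key x k, ← hk, key]
    exact hx
  refine ⟨Equiv.ofBijective s (Finite.injective_iff_bijective.1 hs),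
    Equiv.ofBijective τ (Finite.injective_iff_bijective.1 hτi), fun x => rfl, fun x k => key x k⟩

end General

section Group

variable (P L : Type) [Membership P L]

/-- the group of all collineations -/
def Aut : Subgroup (Equiv.Perm P × Equiv.Perm L) where
  carrier := {g | ∀ x k, g.1 x ∈ g.2 k ↔ x ∈ k}
  mul_mem' := by
    intro a b ha hb x k
    simp only [Set.mem_ofPred_eq] at ha hb
    show a.1 (b.1 x) ∈ a.2 (b.2 k) ↔ x ∈ k
    rw [ha, hb]
  one_mem' := fun x k => Iff.rfl
  inv_mem' := by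
    intro a ha x k
    simp only [Set.mem_ofPred_eq] at ha
    show a.1.symm x ∈ a.2.symm k ↔ x ∈ k
    rw [← ha, Equiv.apply_symm_apply, Equiv.apply_symm_apply]

instance actP : MulAction (Aut P L) P where
  smul g x := g.1.1 x
  one_smul _ := rfl
  mul_smul _ _ _ := rfl

instance actL : MulAction (Aut P L) L where
  smul g x := g.1.2 x
  one_smul _ := rfl
  mul_smul _ _ _ := rfl

variable {P L}

lemma aut_smul (g : Aut P L) (x : P) : g • x = g.1.1 x := rfl

variable [ProjectivePlane P L] [Fintype P] [Fintype L]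

theorem aut_col : Pool.Agent.H634R3.WG.Col (Aut P L) P L where
  inc g p k := g.2 p k
  ff g hg := by
    apply Subtype.ext
    apply Prod.ext
    · exact Equiv.ext hg
    · apply Equiv.ext
      intro k
      symm
      refine line_ext (P := P) (fun x hx => ?_)
      have := g.2 x k
      rw [show g.1.1 x = x from hg x] at this
      exact this.2 hx

end Group


section Dualize

variable {P L : Type} [Membership P L] [ProjectivePlane P L] [Fintype P] [Fintype L]

/-- an injective map of the lines that maps every pencil into a pencil is a collineation -/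
theorem mk_col_dual {s : L → L} (hs : Function.Injective s)
    (hl : ∀ x : P, ∃ y : P, ∀ h : L, x ∈ h → y ∈ s h) :
    ∃ g : Aut P L, ∀ h : L, g • h = s h := by
  obtain ⟨σ, τ, h1, h2⟩ := mk_col (P := Dual L) (L := Dual P) (s := s) hs hl
  refine ⟨⟨(τ, σ), fun x k => h2 k x⟩, fun h => h1 h⟩

lemma aut_smul_line (g : Aut P L) (h : L) : g • h = g.1.2 h := rfl

lemma aut_inc (g : Aut P L) (x : P) (h : L) : g • x ∈ g • h ↔ x ∈ h := g.2 x h

/-- an injective map of the points off `l` that maps every line into a line extends to a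
collineation -/
theorem mk_aff {l : L} {s : P → P} (hs : ∀ x y, x ∉ l → y ∉ l → s x = s y → x = y)
    (ho : ∀ x, x ∉ l → s x ∉ l)
    (hl : ∀ h : L, h ≠ l → ∃ k : L, k ≠ l ∧ ∀ x : P, x ∈ h → x ∉ l → s x ∈ k) :
    ∃ g : Aut P L, (∀ x, x ∉ l → g • x = s x) ∧ g • l = l := by
  choose! τ hτ1 hτ2 using hl
  have key : ∀ x h, x ∉ l → h ≠ l → (s x ∈ τ h ↔ x ∈ h) := by
    intro x h hxl hh
    refine ⟨fun hx => ?_, fun hx => hτ2 h hh x hx hxl⟩
    have h1 := card_Pts_aff (P := P) hh
    have h2 := card_Pts_aff (P := P) (hτ1 h hh)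
    let F : Pts (On P l) h → Pts (On P l) (τ h) :=
      fun p => ⟨s p.1, hτ2 h hh p.1 p.2.1 p.2.2, ho p.1 p.2.2⟩
    have hF : Function.Injective F := by
      intro p q hpq
      exact Subtype.ext (hs _ _ p.2.2 q.2.2 (congrArg Subtype.val hpq))
    have hB : Function.Bijective F := by
      rw [Fintype.bijective_iff_injective_and_card]
      refine ⟨hF, ?_⟩
      rw [← Nat.card_eq_fintype_card, ← Nat.card_eq_fintype_card, h1, h2]
    obtain ⟨y, hy⟩ := hB.2 ⟨s x, hx, ho x hxl⟩
    have : y.1 = x := hs _ _ y.2.2 hxl (congrArg Subtype.val hy)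
    exact this ▸ y.2.1
  have hsurj : ∀ z, z ∉ l → ∃ x, x ∉ l ∧ s x = z := by
    intro z hz
    let F : {p : P // p ∉ l} → {p : P // p ∉ l} := fun p => ⟨s p.1, ho p.1 p.2⟩
    have hF : Function.Injective F := by
      intro p q hpq
      exact Subtype.ext (hs _ _ p.2 q.2 (congrArg Subtype.val hpq))
    obtain ⟨y, hy⟩ := (Finite.injective_iff_surjective.1 hF) ⟨z, hz⟩
    exact ⟨y.1, y.2, congrArg Subtype.val hy⟩
  have hext : ∀ h k : L, h ≠ l → k ≠ l → (∀ x, x ∈ h → x ∉ l → x ∈ k) → h = k := by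
    intro h k hh hk H
    obtain ⟨c, c1, c2⟩ := ex_pt hh
    obtain ⟨x, x1, x2⟩ := ex_two_pts h c
    have hn := one_lt_order P L
    obtain ⟨y, y1, y2⟩ := ex_pt_off h {c, x} (card_le_two.trans hn)
    rw [mem_insert, mem_singleton, not_or] at y2
    have hxl : x ∉ l := fun e => x2 (pt_uniq hh x1 c1 e c2)
    have hyl : y ∉ l := fun e => y2.1 (pt_uniq hh y1 c1 e c2)
    exact line_uniq y2.2 y1 x1 (H y y1 hyl) (H x x1 hxl)
  let T : L → L := fun h => if h = l then l else τ h
  have hT : ∀ h, h ≠ l → T h = τ h := fun h hh => if_neg hh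
  have hTl : T l = l := if_pos rfl
  have hTi : Function.Injective T := by
    intro h k hk
    by_cases hh : h = l
    · by_cases hkl : k = l
      · rw [hh, hkl]
      · rw [hh, hTl, hT k hkl] at hk
        exact absurd hk.symm (hτ1 k hkl)
    by_cases hkl : k = l
    · rw [hkl, hTl, hT h hh] at hk
      exact absurd hk (hτ1 h hh)
    rw [hT h hh, hT k hkl] at hk
    refine hext h k hh hkl (fun x hx hxl => ?_)
    rw [← key x k hxl hkl, ← hk, key x h hxl hh]
    exact hx
  obtain ⟨g, hg⟩ := mk_col_dual (P := P) hTi (by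
    intro x
    by_cases hx : x ∈ l
    · obtain ⟨h0, e1, e2, -⟩ := ex_line3 x l l
      obtain ⟨y, y1, y2⟩ := ex_pt (hτ1 h0 e2)
      refine ⟨y, fun h hh => ?_⟩
      by_cases hhl : h = l
      · rw [hhl, hTl]
        exact y2
      by_cases hh0 : h = h0
      · rw [hh0, hT h0 e2]
        exact y1
      rw [hT h hhl]
      have hne : τ h ≠ τ h0 := by
        rw [← hT h hhl, ← hT h0 e2]
        exact fun e => hh0 (hTi e)
      obtain ⟨z, z1, z2⟩ := ex_pt hne
      by_cases hz : z ∈ l
      · have : z = y := pt_uniq (hτ1 h0 e2) z2 y1 hz y2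
        exact this ▸ z1
      · exfalso
        obtain ⟨w, w1, rfl⟩ := hsurj z hz
        have w2 := (key w h w1 hhl).1 z1
        have w3 := (key w h0 w1 e2).1 z2
        exact w1 ((pt_uniq hh0 w2 hh w3 e1) ▸ hx)
    · refine ⟨s x, fun h hh => ?_⟩
      have hhl : h ≠ l := fun e => hx (e ▸ hh)
      rw [hT h hhl]
      exact hτ2 h hhl x hh hx)
  refine ⟨g, fun x hx => ?_, by rw [hg, hTl]⟩
  obtain ⟨h, h1, h2, -⟩ := ex_line3 x l l
  obtain ⟨k, k1, k2, k3⟩ := ex_line3 x l h
  have e1 : g • x ∈ T h := by rw [← hg]; exact (aut_inc g x h).2 h1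
  have e2 : g • x ∈ T k := by rw [← hg]; exact (aut_inc g x k).2 k1
  have e3 : s x ∈ T h := by rw [hT h h2]; exact hτ2 h h2 x h1 hx
  have e4 : s x ∈ T k := by rw [hT k k2]; exact hτ2 k k2 x k1 hx
  exact pt_uniq (fun e => k3 (hTi e)) e2 e4 e1 e3

end Dualize

end Pool.Agent.H180.Pf
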