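import Pool.Agent.H180.Pp.Count

/-! The number of centres of homologies with a common axis. -/

set_option autoImplicit false
set_option linter.unusedSectionVars false

namespace Pool.Agent.H180.Pf

open Configuration Configuration.ProjectivePlane Finset MulAction Pool.Agent.H634R3.PPC
  Pool.Agent.H634R3.WG Pool.Agent.TH56.TO Pool.Agent.H180.Pp

section

variable {G P L : Type} [Group G] [Finite G] [Fintype P] [Fintype L] [Membership P L]
  [ProjectivePlane P L] [MulAction G P] [MulAction G L]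

/-- the number of centres off the axis -/
theorem cen_le (hC : Col G P L) {l : L} (hax : ∀ (g : G) (p : P), p ∈ l → g • p = p)
    {c₀ : P} (h₀ : c₀ ∈ l) : Nat.card (Cen G l hax) ≤ Nat.card (EA hC l c₀ h₀) := by
  by_cases hE' : IsEmpty (Cen G l hax)
  · rw [Nat.card_of_isEmpty]
    exact Nat.zero_le _
  have hE : ∃ g : G, g ∉ EA hC l c₀ h₀ := by
    rw [not_isEmpty_iff] at hE'
    obtain ⟨⟨z, hz, g, hg1, hg⟩⟩ := hE'
    refine ⟨g, fun h => ?_⟩
    obtain ⟨c, hc, hP⟩ := (mem_EA hC).1 h
    exact hg1 (TaskCount.fix_mem TaskFix.taskFix hC hc hP hz hg)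
  classical
  have i1 : Fintype G := Fintype.ofFinite G
  set E := EA hC l c₀ h₀ with hEdef
  set Ω : SubMulAction G P := Cen G l hax with hΩ
  have i2 : Fintype Ω := Fintype.ofFinite _
  have i3 : Fintype (orbitRel.Quotient G Ω) := Fintype.ofFinite _
  -- fixed points
  have hfix0 : ∀ g : G, g ≠ 1 → g ∈ E → Fintype.card (fixedBy Ω g) = 0 := by
    intro g hg hgE
    rw [Fintype.card_eq_zero_iff]
    constructor
    rintro ⟨⟨z, hz, hz2⟩, hgz⟩
    have hgz' : g • z = z := congrArg Subtype.val hgz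
    obtain ⟨c, hc, hP⟩ := mem_EA hC |>.1 hgE
    exact hg (TaskCount.fix_mem TaskFix.taskFix hC hc hP hz hgz')
  have hfix1 : ∀ g : G, g ∉ E → Fintype.card (fixedBy Ω g) = 1 := by
    intro g hgE
    have hg : g ≠ 1 := fun h => hgE (h ▸ E.one_mem)
    obtain ⟨c, hc⟩ := TaskAxis.taskAxis G P L hC g l (hax g)
    obtain ⟨f1, f2, f3, f4⟩ := TaskFix.taskFix G P L hC g c l hc hg
    have hcl : c ∉ l := fun h => hgE ((mem_EA hC).2 ⟨c, h, hc⟩)
    rw [Fintype.card_eq_one_iff]
    refine ⟨⟨⟨c, hcl, g, hg, f3⟩, Subtype.ext f3⟩, ?_⟩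
    rintro ⟨⟨z, hz, hz2⟩, hgz⟩
    have hgz' : g • z = z := congrArg Subtype.val hgz
    apply Subtype.ext
    apply Subtype.ext
    exact (f1 z hgz').resolve_right hz
  have hone : Fintype.card (fixedBy Ω (1 : G)) = Fintype.card Ω := by
    refine Fintype.card_congr ⟨fun x => x.1, fun x => ⟨x, one_smul _ _⟩, fun _ => rfl, fun _ => rfl⟩
  have hb := MulAction.sum_card_fixedBy_eq_card_orbits_mul_card_group G Ω
  have hsum : ∑ g : G, Fintype.card (fixedBy Ω g) =
      Fintype.card Ω + (univ.filter (fun g : G => g ∉ E)).card := by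
    rw [← Finset.add_sum_erase _ _ (Finset.mem_univ (1 : G)), hone, Finset.card_eq_sum_ones,
      Finset.sum_filter]
    congr 1
    rw [← Finset.add_sum_erase (a := (1 : G)) univ (fun a => if a ∉ E then 1 else 0)
      (Finset.mem_univ (1 : G))]
    rw [if_neg (by simp), zero_add]
    refine Finset.sum_congr rfl fun g hg => ?_
    rw [Finset.mem_erase] at hg
    by_cases hgE : g ∈ E
    · rw [hfix0 g hg.1 hgE, if_neg (by simpa using hgE)]
    · rw [hfix1 g hgE, if_pos hgE]
  have hcE : (univ.filter (fun g : G => g ∉ E)).card + Nat.card E = Fintype.card G := by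
    rw [Nat.card_eq_fintype_card, Fintype.card_subtype, add_comm,
      Finset.card_filter_add_card_filter_not, Finset.card_univ]
  -- the number of centres
  have hle : Fintype.card Ω ≤ (univ.filter (fun g : G => g ∉ E)).card := by
    rw [← Fintype.card_subtype]
    have hch : ∀ z : Ω, ∃ g : G, g ≠ 1 ∧ g • z.1 = z.1 := fun z => z.2.2
    choose f hf1 hf2 using hch
    refine Fintype.card_le_of_injective (fun z => (⟨f z, ?_⟩ : {g : G // g ∉ E})) ?_
    · intro h
      obtain ⟨c, hc, hP⟩ := (mem_EA hC).1 h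
      exact hf1 z (TaskCount.fix_mem TaskFix.taskFix hC hc hP z.2.1 (hf2 z))
    · intro z w hzw
      have h1 : f z = f w := congrArg Subtype.val hzw
      apply Subtype.ext
      exact centre_unique hC hax (hf1 z) z.2.1 w.2.1 (hf2 z) (h1 ▸ hf2 w)
  obtain ⟨g0, hg0⟩ := hE
  have hg01 : g0 ≠ 1 := fun h => hg0 (h ▸ E.one_mem)
  obtain ⟨c, hc⟩ := TaskAxis.taskAxis G P L hC g0 l (hax g0)
  obtain ⟨-, -, f3, -⟩ := TaskFix.taskFix G P L hC g0 c l hc hg01
  have hcl : c ∉ l := fun h => hg0 ((mem_EA hC).2 ⟨c, h, hc⟩)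
  let z0 : Ω := ⟨c, hcl, g0, hg01, f3⟩
  have hEpos : 0 < Nat.card E := Nat.card_pos
  rw [hsum] at hb
  have hq : Fintype.card (orbitRel.Quotient G Ω) = 1 := by
    have h1 : 0 < Fintype.card (orbitRel.Quotient G Ω) :=
      Fintype.card_pos_iff.2 ⟨Quotient.mk _ z0⟩
    by_contra h2
    have h3 : 2 ≤ Fintype.card (orbitRel.Quotient G Ω) := by omega
    have h4 : 2 * Fintype.card G ≤ Fintype.card (orbitRel.Quotient G Ω) * Fintype.card G :=
      Nat.mul_le_mul_right _ h3
    have h5 : Fintype.card (Quotient (orbitRel G Ω)) = Fintype.card (orbitRel.Quotient G Ω) := rfl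
    rw [h5] at hb
    omega
  have hcard : Fintype.card Ω = Nat.card E := by
    have h5 : Fintype.card (Quotient (orbitRel G Ω)) = 1 := hq
    rw [h5, one_mul] at hb
    omega
  rw [Nat.card_eq_fintype_card]
  exact hcard.le

/-- if the order is not a prime power, the number of lines that are axes of homologies with centre
`b` is at most the order -/
theorem axes_le (hC : Col G P L) (hpp : ¬ IsPrimePow (order P L)) (b : P) :
    Nat.card {m : L // b ∉ m ∧ ∃ g : G, g ≠ 1 ∧ (∀ h : L, b ∈ h → g • h = h) ∧ g • m = m} ≤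
      order P L := by
  have hpp' : ¬ IsPrimePow (order (Dual L) (Dual P)) := by
    rw [ProjectivePlane.Dual.order]
    exact hpp
  obtain ⟨c₀, h₀⟩ := exists_pt (P := Dual L) (L := Dual P) b
  have hCd := col_dual hC
  have h1 := cen_le (P := Dual L) (L := Dual P) (col_sub hCd (HA (P := Dual L) (L := Dual P) G b))
    (HA_ax (P := Dual L) (L := Dual P) b) h₀
  have h3 := card_EA_sub (P := Dual L) (L := Dual P) hCd (l := b) h₀
  replace h1 := h1.trans (le_of_eq h3)
  have h2 := card_EA_dvd (P := Dual L) (L := Dual P) hCd hpp' (l := b) h₀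
  rw [ProjectivePlane.Dual.order] at h2
  have hn := one_lt_order P L
  refine le_trans ?_ (h1.trans (Nat.le_of_dvd (by omega) h2))
  refine Nat.card_le_card_of_injective (fun m => ⟨m.1, m.2.1, ?_⟩) ?_
  · obtain ⟨g, g1, g2, g3⟩ := m.2.2
    exact ⟨⟨g, g2⟩, fun e => g1 (congrArg Subtype.val e), g3⟩
  · intro m m' e
    apply Subtype.ext
    have h4 := congrArg Subtype.val e
    exact h4

end

end Pool.Agent.H180.Pf
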