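import Pool.Agent.H180.Pf.Mono

/-! A perspectivity is a product of two perspectivities. -/

set_option autoImplicit false
set_option linter.unusedSectionVars false

open Finset Configuration Configuration.ProjectivePlane
open scoped Classical

namespace Pool.Agent.H180.Pf

open Pool.Agent.H180.Pj

variable {P L : Type} [Membership P L] [ProjectivePlane P L] [Fintype P] [Finite L]

lemma ex_between {l m : L} (hlm : l ≠ m) {z : P} (hzl : z ∉ l) :
    ∃ k : L, z ∉ k ∧ k ≠ l ∧ k ≠ m := by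
  obtain ⟨c, c1, c2⟩ := ex_pt hlm
  obtain ⟨x, x1, x2⟩ := ex_pt_off l {c} (by rw [card_singleton]; exact (one_lt_order P L).le)
  rw [mem_singleton] at x2
  have hxm : x ∉ m := fun h => x2 (pt_uniq hlm x1 c1 h c2)
  have hzx : z ≠ x := fun e => hzl (e ▸ x1)
  obtain ⟨s, s1, s2⟩ := ex_ln (L := L) hzx
  obtain ⟨k, k1, k2, k3⟩ := ex_line3 x l s
  exact ⟨k, fun h => k3 (line_uniq hzx h k1 s1 s2), k2, fun h => hxm (h ▸ k1)⟩

lemma col_tr {z x y w : P} {k : L} (hy : y ∈ k) (hz : z ∉ k) (h1 : Col L z x y)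
    (h2 : Col L z y w) : Col L z x w := by
  obtain ⟨s, s1, s2, s3⟩ := h1
  obtain ⟨r, r1, r2, r3⟩ := h2
  have : s = r := line_uniq (fun e : z = y => hz (e ▸ hy)) s1 s3 r1 r2
  subst this
  exact ⟨s, s1, s2, r3⟩

theorem dbl_proj : Dbl (Set.univ : Set P) (∅ : Set P) (Set.univ : Set L) := by
  rintro l m f - ⟨h0, z, _, z1, z2, z3⟩
  obtain ⟨k, k1, k2, k3⟩ := ex_between h0 z1
  obtain ⟨p, hp, hp'⟩ := perspU k2.symm z1 k1
  obtain ⟨q, hq, hq'⟩ := perspU k3 k1 z2
  have : f = p.trans q := by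
    ext x
    have h1 : Col L z x.1 ((p.trans q) x).1 := by
      rw [Equiv.trans_apply]
      exact col_tr (p x).2.1 k1 (hp' x) (hq' (p x))
    exact col_uniq x.2.1 z1 (f x).2.1 ((p.trans q) x).2.1 z2 (z3 x) h1
  rw [this]
  exact Product.comp (Product.one hp) hq

theorem aff_ne {a l m : L} {f : Pts {x : P | x ∈ a} l ≃ Pts {x : P | x ∈ a} m}
    (hf : Persp {x : P | x ∈ a} {x : P | x ∈ a} l m f) : l ≠ a := by
  obtain ⟨h0, z, hz, z1, z2, z3⟩ := hf
  rintro rfl
  exact z1 hz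

theorem dbl_aff (a : L) : Dbl {x : P | x ∈ a} {x : P | x ∈ a} (Set.univ : Set L) := by
  rintro l m f - ⟨h0, z, hz, z1, z2, z3⟩
  have hla : l ≠ a := fun e => z1 (e ▸ hz)
  have hma : m ≠ a := fun e => z2 (e ▸ hz)
  obtain ⟨k, k1, k2, k3⟩ := ex_between h0 z1
  have hka : k ≠ a := fun e => k1 (e ▸ hz)
  obtain ⟨p, hp, hp'⟩ := perspA hla hka k2.symm hz z1 k1
  obtain ⟨q, hq, hq'⟩ := perspA hka hma k3 hz k1 z2
  have : f = p.trans q := by
    ext x
    have h1 : Col L z x.1 ((p.trans q) x).1 := by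
      rw [Equiv.trans_apply]
      exact col_tr (p x).2.1 k1 (hp' x) (hq' (p x))
    exact col_uniq x.2.1 z1 (f x).2.1 ((p.trans q) x).2.1 z2 (z3 x) h1
  rw [this]
  exact Product.comp (Product.one hp) hq

/-- a perspectivity onto a line through `b` (with `b` omitted) starts at a line through `b` -/
lemma through {C : Set P} {b : P} {l m : L} {f : Pts ({b} : Set P) l ≃ Pts ({b} : Set P) m}
    (hf : Persp C {b} l m f) (hb : b ∈ m) : b ∈ l := by
  obtain ⟨h0, z, hz, z1, z2, z3⟩ := hf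
  by_contra hbl
  obtain ⟨s, s1, s2⟩ := ex_ln (L := L) (fun e : z = b => z2 (e ▸ hb))
  have hsl : s ≠ l := fun e => z1 (e ▸ s1)
  obtain ⟨y, y1, y2⟩ := ex_pt hsl
  have hyb : y ≠ b := fun e => hbl (e ▸ y2)
  obtain ⟨r, r1, r2, r3⟩ := z3 ⟨y, y2, hyb⟩
  have hzy : z ≠ y := fun e => z1 (e ▸ y2)
  have : r = s := line_uniq hzy r1 r2 s1 y1
  subst this
  have h1 : r = m := line_uniq (f ⟨y, y2, hyb⟩).2.2 r3 s2 (f ⟨y, y2, hyb⟩).2.1 hb
  exact z2 (h1 ▸ r1)

/-- four lines through a point -/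
lemma ex_line4 (hn : 3 ≤ order P L) (c : P) (l m k : L) :
    ∃ h : L, c ∈ h ∧ h ≠ l ∧ h ≠ m ∧ h ≠ k := by
  by_contra hcon
  push Not at hcon
  have h1 := lineCount_eq (L := L) c
  unfold lineCount at h1
  have i1 : Fintype L := Fintype.ofFinite L
  have h2 : Nat.card {l : L // c ∈ l} ≤ ({l, m, k} : Finset L).card := by
    rw [Nat.card_eq_fintype_card, Fintype.card_subtype]
    refine Finset.card_le_card ?_
    intro h hh
    simp only [mem_filter, mem_univ, true_and] at hh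
    simp only [mem_insert, mem_singleton]
    by_contra hne
    rw [not_or, not_or] at hne
    exact hne.2.2 (hcon h hh hne.1 hne.2.1)
  have h3 : ({l, m, k} : Finset L).card ≤ 3 := card_le_three
  omega

/-- the perspectivity between two lines through `b` with a centre in `C` -/
lemma perspB {C : Set P} {l k : L} {b : P} (hbl : b ∈ l) (hbk : b ∈ k) (hlk : l ≠ k) {z : P}
    (hz : z ∈ C) (hzl : z ∉ l) (hzk : z ∉ k) :
    ∃ f : Pts ({b} : Set P) l ≃ Pts ({b} : Set P) k,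
      Pj.Persp C {b} l k f ∧ ∀ x, Pj.Col L z x.1 (f x).1 := by
  apply ex_persp hlk hz hzl hzk
  intro x y hx hy h
  simp only [Set.mem_singleton_iff]
  constructor
  · rintro rfl
    exact col_uniq hx hzl hy hbk hzk h (col_ex hx hzl)
  · rintro rfl
    exact col_uniq hy hzk hx hbl hzl h.symm (col_ex hy hzk)

theorem dbl_con (hn : 3 ≤ order P L) (C : Set P) (b : P) :
    Dbl C ({b} : Set P) {k : L | b ∈ k} := by
  intro l m f hbm hf
  have hbl : b ∈ l := through hf hbm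
  obtain ⟨h0, z, hz, z1, z2, z3⟩ := hf
  obtain ⟨s, s1, s2⟩ := ex_ln (L := L) (fun e : z = b => z2 (e ▸ hbm))
  obtain ⟨k, hbk, k1, k2, k3⟩ := ex_line4 hn b l m s
  have hzk : z ∉ k := fun h => k3 (line_uniq (fun e : z = b => z2 (e ▸ hbm)) h hbk s1 s2)
  obtain ⟨p, hp, hp'⟩ := perspB hbl hbk k1.symm hz z1 hzk
  obtain ⟨q, hq, hq'⟩ := perspB hbk hbm k2 hz hzk z2
  have : f = p.trans q := by
    ext x
    have h1 : Col L z x.1 ((p.trans q) x).1 := by
      rw [Equiv.trans_apply]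
      exact col_tr (p x).2.1 hzk (hp' x) (hq' (p x))
    exact col_uniq x.2.1 z1 (f x).2.1 ((p.trans q) x).2.1 z2 (z3 x) h1
  rw [this]
  exact Product.comp (Product.one hp) hq

/-- products with centres on `m` map points of `m` to points of `m` -/
lemma prod_axis {A : Set P} {m : L} {i : ℕ} {l k : L} {f : Pts A l ≃ Pts A k}
    (hf : Product {x : P | x ∈ m} A i l k f) {x : Pts A l} (hx : x.1 ∈ m) : (f x).1 ∈ m := by
  have key : ∀ {l k : L} {f : Pts A l ≃ Pts A k}, Persp {x : P | x ∈ m} A l k f →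
      ∀ {x : Pts A l}, x.1 ∈ m → (f x).1 ∈ m := by
    rintro l k f ⟨h0, z, hz, z1, z2, z3⟩ x hx
    obtain ⟨s, s1, s2, s3⟩ := z3 x
    have : s = m := line_uniq (fun e : z = x.1 => z1 (e ▸ x.2.1)) s1 s2 hz hx
    exact this ▸ s3
  induction hf with
  | one h => exact key h hx
  | comp _ h ih => exact key h (ih hx)

end Pool.Agent.H180.Pf
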