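import Pool.Agent.H180.Pj.GrowP

/-! Products of perspectivities: composition, inversion, longer products, stabilisation. -/

set_option autoImplicit false
set_option linter.unusedSectionVars false

open Finset Configuration Configuration.ProjectivePlane
open scoped Classical

namespace Pool.Agent.H180.Pf

open Pool.Agent.H180.Pj

section General

variable {P L : Type} [Membership P L] {C A : Set P}

lemma Product.tr {i j : ℕ} {l m k : L} {f : Pts A l ≃ Pts A m} {g : Pts A m ≃ Pts A k}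
    (hf : Product C A i l m f) (hg : Product C A j m k g) : Product C A (i + j) l k (f.trans g) := by
  induction hg with
  | one h => exact Product.comp hf h
  | comp _ h ih =>
    rw [← Equiv.trans_assoc, ← Nat.add_assoc]
    exact Product.comp (ih hf) h

lemma persp_sy {l m : L} {f : Pts A l ≃ Pts A m} (h : Persp C A l m f) :
    Persp C A m l f.symm := by
  obtain ⟨h0, z, hz, z1, z2, z3⟩ := h
  refine ⟨h0.symm, z, hz, z2, z1, fun y => ?_⟩
  obtain ⟨s, s1, s2, s3⟩ := z3 (f.symm y)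
  rw [Equiv.apply_symm_apply] at s3
  exact ⟨s, s1, s3, s2⟩

lemma Product.sy {i : ℕ} {l m : L} {f : Pts A l ≃ Pts A m} (hf : Product C A i l m f) :
    Product C A i m l f.symm := by
  induction hf with
  | one h => exact Product.one (persp_sy h)
  | @comp k l j m f g _ h ih =>
    have h1 := Product.tr (Product.one (persp_sy h)) ih
    rw [Nat.add_comm] at h1
    exact h1

lemma Product.pos {i : ℕ} {l m : L} {f : Pts A l ≃ Pts A m} (hf : Product C A i l m f) :
    1 ≤ i := by
  cases hf with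
  | one h => exact le_rfl
  | comp _ _ => omega

/-- splitting off the last perspectivity -/
lemma Product.last {i : ℕ} {l m : L} {f : Pts A l ≃ Pts A m} (hf : Product C A (i + 2) l m f) :
    ∃ (k : L) (g : Pts A l ≃ Pts A k) (p : Pts A k ≃ Pts A m), Product C A (i + 1) l k g ∧
      Persp C A k m p ∧ f = g.trans p := by
  cases hf with
  | comp h1 h2 => exact ⟨_, _, _, h1, h2, rfl⟩

lemma Product.one_iff {l m : L} {f : Pts A l ≃ Pts A m} :
    Product C A 1 l m f ↔ Persp C A l m f := by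
  constructor
  · intro h
    cases h with
    | one h => exact h
    | comp h1 _ => exact absurd (Product.pos h1) (by omega)
  · exact Product.one

/-- a perspectivity to a line in `S` is a product of two perspectivities -/
def Dbl (C A : Set P) (S : Set L) : Prop :=
  ∀ (l m : L) (f : Pts A l ≃ Pts A m), m ∈ S → Persp C A l m f → Product C A 2 l m f

lemma Product.succ {S : Set L} (hd : Dbl C A S) {i : ℕ} {l m : L} (hm : m ∈ S)
    {f : Pts A l ≃ Pts A m} (hf : Product C A i l m f) : Product C A (i + 1) l m f := by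
  cases hf with
  | one h => exact hd _ _ _ hm h
  | @comp k _ j _ g h h1 h2 =>
    have h3 : Product C A (k + 2) l m (g.trans h) := Product.tr h1 (hd _ _ _ hm h2)
    exact h3

lemma Product.le {S : Set L} (hd : Dbl C A S) {i j : ℕ} (hij : i ≤ j) {l m : L} (hm : m ∈ S)
    {f : Pts A l ≃ Pts A m} (hf : Product C A i l m f) : Product C A j l m f := by
  induction hij with
  | refl => exact hf
  | step _ ih => exact Product.succ hd hm ih

lemma Product.mono {C' : Set P} (hC : C ⊆ C') {i : ℕ} {l m : L}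
    {f : Pts A l ≃ Pts A m} (hf : Product C A i l m f) : Product C' A i l m f := by
  have key : ∀ {l m : L} {f : Pts A l ≃ Pts A m}, Persp C A l m f → Persp C' A l m f := by
    rintro l m f ⟨h0, z, hz, h⟩
    exact ⟨h0, z, hC hz, h⟩
  induction hf with
  | one h => exact Product.one (key h)
  | comp _ h ih => exact Product.comp ih (key h)

lemma Product.succ_cases {i : ℕ} {l m : L} {f : Pts A l ≃ Pts A m}
    (hf : Product C A (i + 1) l m f) : (i = 0 ∧ Persp C A l m f) ∨
    ∃ (k : L) (g : Pts A l ≃ Pts A k) (p : Pts A k ≃ Pts A m), Product C A i l k g ∧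
      Persp C A k m p ∧ f = g.trans p := by
  cases i with
  | zero => exact Or.inl ⟨rfl, Product.one_iff.1 hf⟩
  | succ i => exact Or.inr (Product.last hf)

/-- the last perspectivity of a product `l → l` starts at another line -/
lemma Product.loop {i : ℕ} {l : L} {f : Pts A l ≃ Pts A l} (hf : Product C A i l l f) :
    ∃ (j : ℕ) (k : L) (g : Pts A l ≃ Pts A k) (p : Pts A k ≃ Pts A l), i = j + 1 ∧ k ≠ l ∧
      Product C A j l k g ∧ Persp C A k l p ∧ f = g.trans p := by
  obtain ⟨j, rfl⟩ : ∃ j, i = j + 1 := ⟨i - 1, by have := Product.pos hf; omega⟩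
  rcases Product.succ_cases hf with ⟨_, h⟩ | ⟨k, g, p, h1, h2, h3⟩
  · exact absurd rfl h.1
  · exact ⟨j, k, g, p, rfl, h2.1, h1, h2, h3⟩

/-- **Stabilisation.** `D` is a set of points of `l`; `t` are points in `D`. -/
theorem stab_star {S : Set L} {w p j : ℕ} {l : L} (t : Tup j A l)
    {D : Set (Pts A l)}
    (two : ∀ m ∈ S, m ≠ l → ∀ (y : Tup j A m), ∃ f, Product C A w l m f ∧ ∀ i, f (t i) = y i)
    (hT : ∀ f, Product C A (p + w + 2 + w) l l f → (∀ i, f (t i) = t i) →
      ∃ f', Product C A p l l f' ∧ ∀ x ∈ D, f' x = f x) {m : L} (hm : m ∈ S) (hml : m ≠ l)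
    (f : Pts A l ≃ Pts A m) (hf : Product C A (p + w + 2) l m f) :
    ∃ f', Product C A (p + w) l m f' ∧ ∀ x ∈ D, f' x = f x := by
  obtain ⟨a, ha, ea⟩ := two m hm hml (t.trans f.toEmbedding)
  have ea' : ∀ i, a (t i) = f (t i) := fun i => ea i
  have h6 : Product C A (p + w + 2 + w) l l (f.trans a.symm) := Product.tr hf (Product.sy ha)
  obtain ⟨g, hg, eg⟩ := hT (f.trans a.symm) h6 (by
    intro i
    rw [Equiv.trans_apply, Equiv.symm_apply_eq, ea' i])
  refine ⟨g.trans a, Product.tr hg ha, fun x hx => ?_⟩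
  rw [Equiv.trans_apply, eg x hx, Equiv.trans_apply, Equiv.apply_symm_apply]

theorem stab_ne {S : Set L} (hd : Dbl C A S) (hS : ∀ (k m : L) (p : Pts A k ≃ Pts A m),
      m ∈ S → Persp C A k m p → k ∈ S) {w p j : ℕ} {l : L} (t : Tup j A l)
    {D : Set (Pts A l)}
    (two : ∀ m ∈ S, m ≠ l → ∀ (y : Tup j A m), ∃ f, Product C A w l m f ∧ ∀ i, f (t i) = y i)
    (hT : ∀ f, Product C A (p + w + 2 + w) l l f → (∀ i, f (t i) = t i) →
      ∃ f', Product C A p l l f' ∧ ∀ x ∈ D, f' x = f x) :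
    ∀ (q : ℕ) (m : L), m ∈ S → m ≠ l → ∀ f : Pts A l ≃ Pts A m, Product C A q l m f →
      ∃ f', Product C A (p + w) l m f' ∧ ∀ x ∈ D, f' x = f x := by
  have star := fun {m : L} (hm : m ∈ S) (hml : m ≠ l) (f : Pts A l ≃ Pts A m) hf =>
    stab_star t two hT hm hml f hf
  intro q
  induction q using Nat.strong_induction_on with
  | _ q ih =>
    intro m hm hml f hf
    by_cases hq : q ≤ p + w + 2
    · exact star hm hml f (Product.le hd hq hm hf)
    obtain ⟨q', rfl⟩ : ∃ q', q = q' + 1 := ⟨q - 1, by omega⟩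
    rcases Product.succ_cases hf with ⟨h, _⟩ | ⟨k, g, π, hg, hπ, rfl⟩
    · omega
    have hk : k ∈ S := hS _ _ _ hm hπ
    by_cases hkl : k = l
    · subst hkl
      obtain ⟨q'', k', h, ρ, rfl, hk', hh, hρ, rfl⟩ := Product.loop hg
      obtain ⟨h', hh', eh'⟩ := ih q'' (by omega) k' (hS _ _ _ hk hρ) hk' h hh
      have h1 : Product C A (p + w + 2) k m ((h'.trans ρ).trans π) :=
        Product.comp (Product.comp hh' hρ) hπ
      obtain ⟨f', hf', ef'⟩ := star hm hml _ h1
      refine ⟨f', hf', fun x hx => ?_⟩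
      rw [ef' x hx]
      simp only [Equiv.trans_apply, eh' x hx]
    · obtain ⟨g', hg', eg'⟩ := ih q' (by omega) k hk hkl g hg
      have h1 : Product C A (p + w + 1) l m (g'.trans π) := Product.comp hg' hπ
      obtain ⟨f', hf', ef'⟩ := star hm hml _ (Product.succ hd hm h1)
      refine ⟨f', hf', fun x hx => ?_⟩
      rw [ef' x hx]
      simp only [Equiv.trans_apply, eg' x hx]

theorem stab_eq {S : Set L} (hd : Dbl C A S) (hS : ∀ (k m : L) (p : Pts A k ≃ Pts A m),
      m ∈ S → Persp C A k m p → k ∈ S) {w p j : ℕ} {l : L} (hl : l ∈ S) (t : Tup j A l)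
    {D : Set (Pts A l)}
    (two : ∀ m ∈ S, m ≠ l → ∀ (y : Tup j A m), ∃ f, Product C A w l m f ∧ ∀ i, f (t i) = y i)
    (hT : ∀ f, Product C A (p + w + 2 + w) l l f → (∀ i, f (t i) = t i) →
      ∃ f', Product C A p l l f' ∧ ∀ x ∈ D, f' x = f x)
    (q : ℕ) (f : Pts A l ≃ Pts A l) (hf : Product C A q l l f) :
    ∃ f', Product C A (p + w + 1) l l f' ∧ ∀ x ∈ D, f' x = f x := by
  obtain ⟨q', k, g, π, rfl, hkl, hg, hπ, rfl⟩ := Product.loop hf
  obtain ⟨g', hg', eg'⟩ := stab_ne hd hS t two hT q' k (hS _ _ _ hl hπ) hkl g hg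
  refine ⟨g'.trans π, Product.comp hg' hπ, fun x hx => ?_⟩
  simp only [Equiv.trans_apply, eg' x hx]

theorem stab_fix {S : Set L} (hd : Dbl C A S) (hS : ∀ (k m : L) (p : Pts A k ≃ Pts A m),
      m ∈ S → Persp C A k m p → k ∈ S) {w p j : ℕ} {l : L} (hl : l ∈ S) (t : Tup j A l)
    {D : Set (Pts A l)} (htD : ∀ i, t i ∈ D)
    (two : ∀ m ∈ S, m ≠ l → ∀ (y : Tup j A m), ∃ f, Product C A w l m f ∧ ∀ i, f (t i) = y i)
    (hT : ∀ f, Product C A (p + w + 2 + w) l l f → (∀ i, f (t i) = t i) →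
      ∃ f', Product C A p l l f' ∧ ∀ x ∈ D, f' x = f x)
    (q : ℕ) (f : Pts A l ≃ Pts A l) (hf : Product C A q l l f) (hft : ∀ i, f (t i) = t i) :
    ∃ f', Product C A p l l f' ∧ ∀ x ∈ D, f' x = f x := by
  obtain ⟨g, hg, eg⟩ := stab_eq hd hS hl t two hT q f hf
  obtain ⟨h, hh, eh⟩ := hT g (Product.le hd (by omega) hl hg) (fun i => by rw [eg _ (htD i), hft i])
  exact ⟨h, hh, fun x hx => by rw [eh x hx, eg x hx]⟩

/-- the images of `d` under the products of `p` perspectivities fixing the `t i` -/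
def Imgs (C A : Set P) (l : L) {j : ℕ} (t : Tup j A l) (d : Pts A l) (p : ℕ) : Set (Pts A l) :=
  {x | ∃ f, Product C A p l l f ∧ (∀ i, f (t i) = t i) ∧ f d = x}

lemma Imgs.mono {S : Set L} (hd : Dbl C A S) {l : L} (hl : l ∈ S) {j : ℕ} (t : Tup j A l)
    (d : Pts A l) {p q : ℕ} (hpq : p ≤ q) : Imgs C A l t d p ⊆ Imgs C A l t d q := by
  rintro x ⟨f, hf, h1, h2⟩
  exact ⟨f, Product.le hd hpq hl hf, h1, h2⟩

theorem Imgs.stab {S : Set L} (hd : Dbl C A S) (hS : ∀ (k m : L) (p : Pts A k ≃ Pts A m),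
      m ∈ S → Persp C A k m p → k ∈ S) {w p j : ℕ} {l : L} (hl : l ∈ S) (t : Tup j A l)
    (d : Pts A l)
    (two : ∀ m ∈ S, m ≠ l → ∀ (y : Tup j A m), ∃ f, Product C A w l m f ∧ ∀ i, f (t i) = y i)
    (h : Imgs C A l t d (p + w + 2 + w) ⊆ Imgs C A l t d p) (q : ℕ) :
    Imgs C A l t d q ⊆ Imgs C A l t d p := by
  rintro x ⟨f, hf, h1, h2⟩
  obtain ⟨f', hf', e⟩ := stab_fix (D := Set.range t ∪ {d}) hd hS hl t
    (fun i => Or.inl ⟨i, rfl⟩) two (by
      intro f hf hft
      obtain ⟨f', hf', h1', h2'⟩ := h ⟨f, hf, hft, rfl⟩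
      refine ⟨f', hf', ?_⟩
      rintro x (⟨i, rfl⟩ | hx)
      · rw [h1' i, hft i]
      · rw [Set.mem_singleton_iff] at hx
        rw [hx, h2']) q f hf h1
  exact ⟨f', hf', fun i => by rw [e _ (Or.inl ⟨i, rfl⟩), h1 i], by
    rw [e d (Or.inr rfl), h2]⟩

/-- **growth of the set of images** -/
theorem Imgs.growth [Finite P] {S : Set L} (hd : Dbl C A S)
    (hS : ∀ (k m : L) (p : Pts A k ≃ Pts A m),
      m ∈ S → Persp C A k m p → k ∈ S) {w p j : ℕ} {l : L} (hl : l ∈ S) (t : Tup j A l)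
    (d : Pts A l)
    (two : ∀ m ∈ S, m ≠ l → ∀ (y : Tup j A m), ∃ f, Product C A w l m f ∧ ∀ i, f (t i) = y i)
    {s : ℕ} (h0 : s ≤ (Imgs C A l t d p).ncard) (k : ℕ) :
    k + s ≤ (Imgs C A l t d ((2 * w + 2) * k + p)).ncard ∨
      ∀ q, Imgs C A l t d q ⊆ Imgs C A l t d ((2 * w + 2) * k + p) := by
  induction k with
  | zero => left; simpa using h0
  | succ k ih =>
    have hle : (2 * w + 2) * k + p ≤ (2 * w + 2) * (k + 1) + p := by
      rw [Nat.mul_succ]
      omega
    rcases ih with ih | ih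
    · by_cases hsub : Imgs C A l t d ((2 * w + 2) * (k + 1) + p) ⊆
          Imgs C A l t d ((2 * w + 2) * k + p)
      · right
        intro q
        refine (Imgs.stab hd hS hl t d two (p := (2 * w + 2) * k + p) ?_ q).trans
          (Imgs.mono hd hl t d hle)
        rw [show (2 * w + 2) * k + p + w + 2 + w = (2 * w + 2) * (k + 1) + p by ring]
        exact hsub
      · left
        have h1 : Imgs C A l t d ((2 * w + 2) * k + p) ⊂
            Imgs C A l t d ((2 * w + 2) * (k + 1) + p) := ⟨Imgs.mono hd hl t d hle, hsub⟩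
        have h2 := Set.ncard_lt_ncard h1 (Set.toFinite _)
        omega
    · right
      exact fun q => (ih q).trans (Imgs.mono hd hl t d hle)

end General

end Pool.Agent.H180.Pf
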